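import Mathlib

/-!
Project GC (helper328): a positive proportion of the lifts of a multigraph has no short cycles
(MP_349e33_co).
-/

set_option autoImplicit false

namespace Pool.Agent.N328.GC
open Finset

section
variable {V I : Type} (s t : I → V) {N : ℕ}

/-- the tail of the edge `(i, a)` of the lift -/
def src (x : I × Fin N) : V × Fin N := (s x.1, x.2)

/-- the head of the edge `(i, a)` of the lift given by the permutations `π` -/
def dst (π : I → Equiv.Perm (Fin N)) (x : I × Fin N) : V × Fin N := (t x.1, π x.1 x.2)

/-- there is a walk with at most `k` edges from `u` to `v` in the lift, which does not use the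
edges in `Y` -/
def Wk (π : I → Equiv.Perm (Fin N)) (Y : Set (I × Fin N)) :
    ℕ → V × Fin N → V × Fin N → Prop
  | 0, u, v => u = v
  | k + 1, u, v => Wk π Y k u v ∨ ∃ x, x ∉ Y ∧
      ((Wk π Y k u (src s x) ∧ dst t π x = v) ∨ (Wk π Y k u (dst t π x) ∧ src s x = v))

/-- the edge `x` lies on a closed walk with at most `g + 1` edges that uses it only once -/
def Bad (g : ℕ) (π : I → Equiv.Perm (Fin N)) (x : I × Fin N) : Prop :=
  Wk s t π {x} g (dst t π x) (src s x)

/-- the ends of the edges `x`, `y` are at distance more than `g` -/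
def Far (g : ℕ) (π : I → Equiv.Perm (Fin N)) (x y : I × Fin N) : Prop :=
  ¬ Wk s t π ∅ g (src s x) (src s y) ∧ ¬ Wk s t π ∅ g (src s x) (dst t π y) ∧
    ¬ Wk s t π ∅ g (dst t π x) (src s y) ∧ ¬ Wk s t π ∅ g (dst t π x) (dst t π y)

/-- switch the heads of the edges `(i, a)` and `(i, b)` -/
def sw [DecidableEq I] (π : I → Equiv.Perm (Fin N)) (i : I) (a b : Fin N) :
    I → Equiv.Perm (Fin N) :=
  Function.update π i (π i * Equiv.swap a b)

/-- bound for the number of the vertices at distance at most `g` from a given vertex -/
def ballBound (I : Type) [Fintype I] (g : ℕ) : ℕ := (2 * Fintype.card I + 1) ^ g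

end

end Pool.Agent.N328.GC
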