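import Pool.Agent.N328.GC.Defs

/-!
Statements of the tasks of project GC (helper328).
-/

set_option autoImplicit false

namespace Pool.Agent.N328.GC.Stm
open Finset Pool.Agent.N328.GC

section
variable {V I : Type} [Fintype V] [Fintype I] [DecidableEq V] [DecidableEq I]

/-- GC/BALL: few vertices are near a given one; few edges `(i, b)` are not far from `(i, a)`. -/
theorem ball (s t : I → V) (N g : ℕ) (π : I → Equiv.Perm (Fin N)) :
    (∀ u, {v | Wk s t π ∅ g u v}.ncard ≤ ballBound I g) ∧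
      ∀ (i : I) (a : Fin N), {b : Fin N | ¬ Far s t g π (i, a) (i, b)}.ncard ≤ 4 * ballBound I g := by
  sorry

/-- GC/BACK: every family of permutations comes from few switches at bad edges. -/
theorem back (s t : I → V) (N g : ℕ)
    (hball : ∀ (π : I → Equiv.Perm (Fin N)) (u : V × Fin N),
      {v | Wk s t π ∅ g u v}.ncard ≤ ballBound I g)
    (Q : Set (I → Equiv.Perm (Fin N))) :
    {z : (I → Equiv.Perm (Fin N)) × I × Fin N × Fin N |
      Bad s t g z.1 (z.2.1, z.2.2.1) ∧ Far s t g z.1 (z.2.1, z.2.2.1) (z.2.1, z.2.2.2) ∧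
        sw z.1 z.2.1 z.2.2.1 z.2.2.2 ∈ Q}.ncard ≤
      Fintype.card I * N * ballBound I g * Q.ncard := by
  sorry

/-- GC/SW: a switch of a bad edge with a far good edge creates no new bad edge. -/
theorem switch (s t : I → V) (N g : ℕ) (π : I → Equiv.Perm (Fin N)) (i : I) (a b : Fin N)
    (ha : Bad s t g π (i, a)) (hb : ¬ Bad s t g π (i, b))
    (hfar : Far s t g π (i, a) (i, b)) :
    ∀ x, Bad s t g (sw π i a b) x → Bad s t g π x ∧ x ≠ (i, a) := by
  sorry

/-- GC/FIN: a positive proportion of the lifts has no bad edge. -/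
theorem fin
    (hball : ∀ (s t : I → V) (N g : ℕ) (π : I → Equiv.Perm (Fin N)),
      (∀ u, {v | Wk s t π ∅ g u v}.ncard ≤ ballBound I g) ∧
        ∀ (i : I) (a : Fin N), {b : Fin N | ¬ Far s t g π (i, a) (i, b)}.ncard ≤
          4 * ballBound I g)
    (hback : ∀ (s t : I → V) (N g : ℕ) (Q : Set (I → Equiv.Perm (Fin N))),
      {z : (I → Equiv.Perm (Fin N)) × I × Fin N × Fin N |
        Bad s t g z.1 (z.2.1, z.2.2.1) ∧ Far s t g z.1 (z.2.1, z.2.2.1) (z.2.1, z.2.2.2) ∧
          sw z.1 z.2.1 z.2.2.1 z.2.2.2 ∈ Q}.ncard ≤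
        Fintype.card I * N * ballBound I g * Q.ncard)
    (hsw : ∀ (s t : I → V) (N g : ℕ) (π : I → Equiv.Perm (Fin N)) (i : I) (a b : Fin N),
      Bad s t g π (i, a) → ¬ Bad s t g π (i, b) → Far s t g π (i, a) (i, b) →
      ∀ x, Bad s t g (sw π i a b) x → Bad s t g π x ∧ x ≠ (i, a))
    (s t : I → V) (g : ℕ) :
    ∃ (c : ℝ) (N₀ : ℕ), 0 < c ∧ ∀ N : ℕ, N₀ ≤ N →
      c * (N.factorial : ℝ) ^ Fintype.card I ≤
        ({π : I → Equiv.Perm (Fin N) | ∀ x, ¬ Bad s t g π x}.ncard : ℝ) := by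
  sorry

/-- GC/FREE: without bad edges there are no short cycles, hence no copies of a small graph with
a cycle. -/
theorem free (s t : I → V) (N g : ℕ) (π : I → Equiv.Perm (Fin N)) (h : ∀ x, ¬ Bad s t g π x)
    (L : SimpleGraph (V × Fin N))
    (hL : ∀ u v, L.Adj u v → ∃ x : I × Fin N, (src s x = u ∧ dst t π x = v) ∨
      (src s x = v ∧ dst t π x = u))
    (W : Type) [Fintype W] (F : SimpleGraph W) (hF : ¬ F.IsAcyclic) (hW : Fintype.card W ≤ g) :
    F.Free L := by
  sorry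

end

end Pool.Agent.N328.GC.Stm
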